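import Pool.Agent.Lib.MP_7295f2_lc.Fin

/-!
# MP_7295f2_lc: CH and two instances of Jensen's square imply `(ℵ₃, 4, 2) ↛ ℵ₁`
-/

open Cardinal Pool.Agent.Lib.MP_7295f2_lc

namespace Pool.Agent.Results.MP_7295f2_lc.FromSquare

theorem result (hCH : (𝔠 : Cardinal.{0}) = ℵ_ 1) (h1 : Square (ℵ_ 1)) (h2 : Square (ℵ_ 2)) :
    ¬ SetMappingArrow (ℵ_ 3) 4 2 (ℵ_ 1) := by
  have e2 : Order.succ (ℵ_ 1 : Cardinal.{0}) = ℵ_ 2 := by
    rw [Cardinal.succ_aleph]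
    congr 1
    norm_num
  have e3 : (ℵ_ 3 : Cardinal.{0}) = Order.succ (Order.succ (ℵ_ 1)) := by
    rw [e2, Cardinal.succ_aleph]
    congr 1
  exact not_arrow hCH h1 (e2 ▸ h2) (ℵ_ 3) e3

end Pool.Agent.Results.MP_7295f2_lc.FromSquare
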